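import Pool.Agent.Lib.MP_144d21_co.X2.IfaceS

set_option autoImplicit false

namespace Pool.Agent.Xu.X2.H82

open Finset

/-! ### OMEGA and ALGA: the linear algebra of section 5 -/

theorem dfc_empty (W : Submodule ℝ (Fin 3 → ℝ)) : dfc W ∅ = Module.finrank ℝ W := by
  have h : (⨅ i ∈ (∅ : Finset (Fin 3)),
      LinearMap.ker (LinearMap.proj i : (Fin 3 → ℝ) →ₗ[ℝ] ℝ)) = ⊤ := by simp
  unfold dfc
  rw [h, inf_top_eq]

theorem inj_self {W : Submodule ℝ (Fin 3 → ℝ)} {D : Finset (Fin 3)}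
    (hW : ∀ ν ∈ W, ∀ i, i ∉ D → ν i = 0) : Inj W D := by
  intro ν hν h0
  ext i
  by_cases hi : i ∈ D
  · exact h0 i hi
  · exact hW ν hν i hi

theorem inj_erase {W : Submodule ℝ (Fin 3 → ℝ)} {D : Finset (Fin 3)}
    (hW : ∀ ν ∈ W, ∀ i, i ∉ D → ν i = 0) {k : Fin 3} (hk : Pi.single k (1 : ℝ) ∉ W) :
    Inj W (D.erase k) := by
  intro ν hν h0
  have h1 : ν = ν k • Pi.single k (1 : ℝ) := by
    ext i
    by_cases hik : i = k
    · subst hik
      simp
    · have h2 : ν i = 0 := by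
        by_cases hiD : i ∈ D
        · exact h0 i (mem_erase.2 ⟨hik, hiD⟩)
        · exact hW ν hν i hiD
      simp [h2, Pi.single_eq_of_ne hik]
  by_cases hk0 : ν k = 0
  · rw [h1, hk0, zero_smul]
  · exfalso
    apply hk
    have h3 : Pi.single k (1 : ℝ) = (ν k)⁻¹ • ν := by
      conv_rhs => rw [h1]
      rw [smul_smul]
      have h4 : (ν k)⁻¹ * (ν k • (Pi.single k (1 : ℝ) : Fin 3 → ℝ)) k = 1 := by
        rw [← h1]
        exact inv_mul_cancel₀ hk0
      simp only [Pi.smul_apply, Pi.single_eq_same, smul_eq_mul, mul_one] at h4 ⊢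
      rw [h4, one_smul]
    rw [h3]
    exact W.smul_mem _ hν

theorem single_notMem {W : Submodule ℝ (Fin 3 → ℝ)} (hW : W ≠ ⊤) :
    ∃ k, Pi.single k (1 : ℝ) ∉ W := by
  by_contra hc
  push Not at hc
  apply hW
  rw [eq_top_iff]
  intro ν _
  have h1 : ν = ∑ i, ν i • (Pi.single i (1 : ℝ) : Fin 3 → ℝ) := by
    ext j
    simp [Pi.single_apply]
  rw [h1]
  exact Submodule.sum_mem _ fun i _ => W.smul_mem _ (hc i)

theorem inj_one {W : Submodule ℝ (Fin 3 → ℝ)} (μ : Fin 3 → ℝ)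
    (h : ∀ ν ∈ W, ∃ c : ℝ, c • μ = ν) {i : Fin 3} (hi : μ i ≠ 0) : Inj W {i} := by
  intro ν hν h0
  obtain ⟨c, hc⟩ := h ν hν
  have h1 := h0 i (mem_singleton_self i)
  rw [← hc] at h1
  simp only [Pi.smul_apply, smul_eq_mul, mul_eq_zero] at h1
  rcases h1 with h1 | h1
  · rw [← hc, h1, zero_smul]
  · exact absurd h1 hi

theorem finrank_one {W : Submodule ℝ (Fin 3 → ℝ)} (h : Module.finrank ℝ W ≤ 1) :
    ∃ μ ∈ W, ∀ ν ∈ W, ∃ c : ℝ, c • μ = ν := by
  obtain ⟨v, hv⟩ := finrank_le_one_iff.1 h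
  refine ⟨v, v.2, fun ν hν => ?_⟩
  obtain ⟨c, hc⟩ := hv ⟨ν, hν⟩
  exact ⟨c, by have := congrArg Subtype.val hc; simpa using this⟩

theorem om_aux (W1 W2 : Submodule ℝ (Fin 3 → ℝ)) (D : Finset (Fin 3))
    (h1 : ∀ ν ∈ W1, ∀ i, i ∉ D → ν i = 0) (h2 : ∀ ν ∈ W2, ∀ i, i ∉ D → ν i = 0)
    (hW : W1 ⊓ W2 = ⊥) (hr : Module.finrank ℝ W2 ≤ 1) :
    ∃ F ⊆ D, Inj W1 F ∧ Inj W2 (D \ F) := by
  obtain ⟨μ, hμ, hm⟩ := finrank_one hr
  by_cases hμ0 : μ = 0
  · refine ⟨D, Subset.refl _, inj_self h1, fun ν hν _ => ?_⟩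
    obtain ⟨c, hc⟩ := hm ν hν
    rw [← hc, hμ0, smul_zero]
  · have hex : ∃ i, μ i ≠ 0 ∧ Pi.single i (1 : ℝ) ∉ W1 := by
      by_contra hc
      push Not at hc
      apply hμ0
      have h3 : μ ∈ W1 := by
        have h4 : μ = ∑ i, μ i • (Pi.single i (1 : ℝ) : Fin 3 → ℝ) := by
          ext j
          simp [Pi.single_apply]
        rw [h4]
        refine Submodule.sum_mem _ fun i _ => ?_
        by_cases hi : μ i = 0
        · rw [hi, zero_smul]
          exact W1.zero_mem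
        · exact W1.smul_mem _ (hc i hi)
      have h5 : μ ∈ W1 ⊓ W2 := ⟨h3, hμ⟩
      rw [hW] at h5
      exact (Submodule.mem_bot ℝ).1 h5
    obtain ⟨i, hi, hi1⟩ := hex
    have hiD : i ∈ D := by
      by_contra hiD
      exact hi (h2 μ hμ i hiD)
    refine ⟨D.erase i, erase_subset _ _, inj_erase h1 hi1, ?_⟩
    have h6 : D \ D.erase i = {i} := by
      ext j
      simp only [mem_sdiff, mem_erase, mem_singleton, not_and]
      constructor
      · rintro ⟨hj, h⟩
        by_contra hne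
        exact absurd hj (fun hj => h hne hj)
      · rintro rfl
        exact ⟨hiD, fun h => absurd rfl h⟩
    rw [h6]
    exact inj_one μ hm hi

/-- OMEGA -/
theorem omega : OmegaS := by
  intro WR WL D hR hL hW
  have hdim := Submodule.finrank_sup_add_finrank_inf_eq WR WL
  rw [hW, finrank_bot, add_zero] at hdim
  have h3 : Module.finrank ℝ (WR ⊔ WL : Submodule ℝ (Fin 3 → ℝ)) ≤ 3 := by
    have := Submodule.finrank_le (WR ⊔ WL : Submodule ℝ (Fin 3 → ℝ))
    simpa using this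
  rcases Nat.lt_or_ge 1 (Module.finrank ℝ WL) with h | h
  · obtain ⟨F, hF, h1, h2⟩ := om_aux WL WR D hL hR (by rw [inf_comm]; exact hW) (by omega)
    exact ⟨D \ F, sdiff_subset, h2, by rwa [Finset.sdiff_sdiff_eq_self hF]⟩
  · exact om_aux WR WL D hR hL hW h

/-- the numbers: `D = univ`, `F = {e}` -/
theorem bi_one (A A' τ b0 b1 b2 c0 c1 c2 : ℝ) (_ : 0 ≤ τ) (hτ : τ ≤ b1)
    (ha : 0 ≤ A - b0 - b1 - b2 + τ) (hb1 : 0 ≤ b1) (hb2 : 0 ≤ b2) (hc0 : 0 ≤ c0)
    (h12 : 0 ≤ A' - c0 - c1) (h2 : 0 ≤ A' - c2) :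
    (A - b1 - b2) * (A' - c0) ≤ A * A' - (b0 * c0 + b1 * c1 + b2 * c2) := by
  nlinarith [mul_nonneg hb1 h12, mul_nonneg hb2 h2, mul_nonneg hc0 ha,
    mul_nonneg hc0 (sub_nonneg.2 hτ)]

theorem bi_zero (A A' τ b0 b1 b2 c0 c1 c2 : ℝ) (hτ0 : 0 ≤ τ) (h0 : τ ≤ b0) (h1 : τ ≤ b1)
    (h2 : τ ≤ b2) (hc0 : 0 ≤ A' - c0) (hc1 : 0 ≤ A' - c1) (hc2 : 0 ≤ A' - c2)
    (hs : 0 ≤ 2 * A' - c0 - c1 - c2) :
    (A - b0 - b1 - b2 + τ) * A' ≤ A * A' - (b0 * c0 + b1 * c1 + b2 * c2) := by
  nlinarith [mul_nonneg (sub_nonneg.2 h0) hc0, mul_nonneg (sub_nonneg.2 h1) hc1,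
    mul_nonneg (sub_nonneg.2 h2) hc2, mul_nonneg hτ0 hs]

theorem sum_erase3 (b : Fin 3 → ℝ) (i : Fin 3) :
    ∑ j ∈ univ \ univ.erase i, b j = b i := by
  have h : (univ : Finset (Fin 3)) \ univ.erase i = {i} := by
    ext j
    simp
  rw [h, sum_singleton]

/-- the product inequality -/
theorem bi (D : Finset (Fin 3)) (A A' τ τ' bX : ℝ) (b b' : Fin 3 → ℝ)
    (aR aL : Finset (Fin 3) → ℝ) (hX : bX = A * A' - ∑ i ∈ D, b i * b' i)
    (hR : ∀ I ⊆ D, (I ≠ ∅ ∨ D ≠ univ) → aR I = A - ∑ i ∈ D \ I, b i)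
    (hL : ∀ I ⊆ D, (I ≠ ∅ ∨ D ≠ univ) → aL I = A' - ∑ i ∈ D \ I, b' i)
    (hR0 : D = univ → 0 ≤ τ ∧ (∀ i, τ ≤ b i) ∧ aR ∅ = A - ∑ i, b i + τ)
    (hL0 : D = univ → 0 ≤ τ' ∧ (∀ i, τ' ≤ b' i) ∧ aL ∅ = A' - ∑ i, b' i + τ')
    (hb : ∀ i, 0 ≤ b i) (hb' : ∀ i, 0 ≤ b' i) (haR : ∀ I ⊆ D, 0 ≤ aR I)
    (haL : ∀ I ⊆ D, 0 ≤ aL I) (F : Finset (Fin 3)) (hF : F ⊆ D) :
    aR F * aL (D \ F) ≤ bX := by
  by_cases hD : D = univ
  · subst hD
    obtain ⟨t0, t1, t2⟩ := hR0 rfl
    obtain ⟨t0', t1', t2'⟩ := hL0 rfl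
    have u0 := hR {0} (subset_univ _) (Or.inl (by decide))
    have u1 := hR {1} (subset_univ _) (Or.inl (by decide))
    have u2 := hR {2} (subset_univ _) (Or.inl (by decide))
    have u01 := hR {0, 1} (subset_univ _) (Or.inl (by decide))
    have u02 := hR {0, 2} (subset_univ _) (Or.inl (by decide))
    have u12 := hR {1, 2} (subset_univ _) (Or.inl (by decide))
    have uu := hR univ (subset_univ _) (Or.inl (by decide))
    have v0 := hL {0} (subset_univ _) (Or.inl (by decide))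
    have v1 := hL {1} (subset_univ _) (Or.inl (by decide))
    have v2 := hL {2} (subset_univ _) (Or.inl (by decide))
    have v01 := hL {0, 1} (subset_univ _) (Or.inl (by decide))
    have v02 := hL {0, 2} (subset_univ _) (Or.inl (by decide))
    have v12 := hL {1, 2} (subset_univ _) (Or.inl (by decide))
    have vv := hL univ (subset_univ _) (Or.inl (by decide))
    rw [show (univ : Finset (Fin 3)) \ {0} = {1, 2} by decide, sum_pair (by decide)] at u0 v0
    rw [show (univ : Finset (Fin 3)) \ {1} = {0, 2} by decide, sum_pair (by decide)] at u1 v1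
    rw [show (univ : Finset (Fin 3)) \ {2} = {0, 1} by decide, sum_pair (by decide)] at u2 v2
    rw [show (univ : Finset (Fin 3)) \ {0, 1} = {2} by decide, sum_singleton] at u01 v01
    rw [show (univ : Finset (Fin 3)) \ {0, 2} = {1} by decide, sum_singleton] at u02 v02
    rw [show (univ : Finset (Fin 3)) \ {1, 2} = {0} by decide, sum_singleton] at u12 v12
    rw [show (univ : Finset (Fin 3)) \ univ = ∅ by decide, sum_empty] at uu vv
    rw [Fin.sum_univ_three] at t2 t2' hX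
    have w (I : Finset (Fin 3)) := haR I (subset_univ _)
    have w' (I : Finset (Fin 3)) := haL I (subset_univ _)
    have w0 := w {0}
    have w1 := w {1}
    have w2 := w {2}
    have w01 := w {0, 1}
    have w02 := w {0, 2}
    have w12 := w {1, 2}
    have we := w ∅
    have x0 := w' {0}
    have x1 := w' {1}
    have x2 := w' {2}
    have x01 := w' {0, 1}
    have x02 := w' {0, 2}
    have x12 := w' {1, 2}
    have xe := w' ∅
    rw [u0] at w0
    rw [u1] at w1
    rw [u2] at w2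
    rw [u01] at w01
    rw [u02] at w02
    rw [u12] at w12
    rw [t2] at we
    rw [v0] at x0
    rw [v1] at x1
    rw [v2] at x2
    rw [v01] at x01
    rw [v02] at x02
    rw [v12] at x12
    rw [t2'] at xe
    have hF8 : F = ∅ ∨ F = {0} ∨ F = {1} ∨ F = {2} ∨ F = {0, 1} ∨ F = {0, 2} ∨ F = {1, 2} ∨
        F = univ := by
      revert F
      decide
    rcases hF8 with h | h | h | h | h | h | h | h <;> subst h
    · rw [sdiff_empty, t2, vv, hX]
      have := bi_zero A A' τ (b 0) (b 1) (b 2) (b' 0) (b' 1) (b' 2) t0 (t1 0) (t1 1) (t1 2)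
        x12 x02 x01 (by linarith)
      linarith
    · rw [show (univ : Finset (Fin 3)) \ {0} = {1, 2} by decide, u0, v12, hX]
      have := bi_one A A' τ (b 0) (b 1) (b 2) (b' 0) (b' 1) (b' 2) t0 (t1 1) (by linarith) (hb 1) (hb 2)
        (hb' 0) (by linarith) x01
      linarith
    · rw [show (univ : Finset (Fin 3)) \ {1} = {0, 2} by decide, u1, v02, hX]
      have := bi_one A A' τ (b 1) (b 0) (b 2) (b' 1) (b' 0) (b' 2) t0 (t1 0) (by linarith) (hb 0)
        (hb 2) (hb' 1) (by linarith) x01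
      linarith
    · rw [show (univ : Finset (Fin 3)) \ {2} = {0, 1} by decide, u2, v01, hX]
      have := bi_one A A' τ (b 2) (b 0) (b 1) (b' 2) (b' 0) (b' 1) t0 (t1 0) (by linarith) (hb 0)
        (hb 1) (hb' 2) (by linarith) x02
      linarith
    · rw [show (univ : Finset (Fin 3)) \ {0, 1} = {2} by decide, u01, v2, hX]
      have := bi_one A' A τ' (b' 2) (b' 0) (b' 1) (b 2) (b 0) (b 1) t0' (t1' 0) (by linarith)
        (hb' 0) (hb' 1) (hb 2) (by linarith) w02
      linarith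
    · rw [show (univ : Finset (Fin 3)) \ {0, 2} = {1} by decide, u02, v1, hX]
      have := bi_one A' A τ' (b' 1) (b' 0) (b' 2) (b 1) (b 0) (b 2) t0' (t1' 0) (by linarith)
        (hb' 0) (hb' 2) (hb 1) (by linarith) w01
      linarith
    · rw [show (univ : Finset (Fin 3)) \ {1, 2} = {0} by decide, u12, v0, hX]
      have := bi_one A' A τ' (b' 0) (b' 1) (b' 2) (b 0) (b 1) (b 2) t0' (t1' 1) (by linarith)
        (hb' 1) (hb' 2) (hb 0) (by linarith) w01
      linarith
    · rw [show (univ : Finset (Fin 3)) \ univ = ∅ by decide, uu, t2', hX]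
      have := bi_zero A' A τ' (b' 0) (b' 1) (b' 2) (b 0) (b 1) (b 2) t0' (t1' 0) (t1' 1) (t1' 2)
        w12 w02 w01 (by linarith)
      linarith
  · rw [hR F hF (Or.inr hD), hL (D \ F) sdiff_subset (Or.inr hD), Finset.sdiff_sdiff_eq_self hF, hX]
    have e1 : ∑ i ∈ D, b i * b' i = ∑ i ∈ F, b i * b' i + ∑ i ∈ D \ F, b i * b' i := by
      rw [add_comm, sum_sdiff hF]
    have e2 : 0 ≤ ∑ e ∈ F, b' e * (A - b e - ∑ i ∈ D \ F, b i) := by
      refine sum_nonneg fun e he => mul_nonneg (hb' e) ?_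
      have h1 := haR (F.erase e) ((erase_subset _ _).trans hF)
      rw [hR (F.erase e) ((erase_subset _ _).trans hF) (Or.inr hD)] at h1
      have h2 : D \ F.erase e = insert e (D \ F) := by
        ext j
        simp only [mem_sdiff, mem_erase, mem_insert, not_and]
        constructor
        · rintro ⟨h3, h4⟩
          by_cases hje : j = e
          · exact Or.inl hje
          · exact Or.inr ⟨h3, h4 hje⟩
        · rintro (rfl | ⟨h3, h4⟩)
          · exact ⟨hF he, fun h => absurd rfl h⟩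
          · exact ⟨h3, fun _ => h4⟩
      rw [h2, sum_insert (by simp [he])] at h1
      linarith
    have e3 : 0 ≤ ∑ f ∈ D \ F, b f * (A' - b' f) := by
      refine sum_nonneg fun f hf => mul_nonneg (hb f) ?_
      have hfD := (mem_sdiff.1 hf).1
      have h1 := haL (D.erase f) (erase_subset _ _)
      rw [hL (D.erase f) (erase_subset _ _) (Or.inr hD)] at h1
      have h2 : D \ D.erase f = {f} := by
        ext j
        simp only [mem_sdiff, mem_erase, mem_singleton, not_and]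
        constructor
        · rintro ⟨h3, h4⟩
          by_contra hne
          exact h4 hne h3
        · rintro rfl
          exact ⟨hfD, fun h => absurd rfl h⟩
      rw [h2, sum_singleton] at h1
      exact h1
    have e4 : ∑ e ∈ F, b' e * (A - b e - ∑ i ∈ D \ F, b i) =
        A * ∑ e ∈ F, b' e - ∑ e ∈ F, b e * b' e - (∑ e ∈ F, b' e) * ∑ i ∈ D \ F, b i := by
      rw [mul_sum, sum_mul, ← sum_sub_distrib, ← sum_sub_distrib]
      exact sum_congr rfl fun e _ => by ring
    have e5 : ∑ f ∈ D \ F, b f * (A' - b' f) =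
        A' * ∑ f ∈ D \ F, b f - ∑ f ∈ D \ F, b f * b' f := by
      rw [mul_sum, ← sum_sub_distrib]
      exact sum_congr rfl fun e _ => by ring
    rw [e1]
    rw [e4] at e2
    rw [e5] at e3
    nlinarith

/-- `W ⊓ W'` different from zero needs a nonempty `D` -/
theorem ne_empty_of {W : Submodule ℝ (Fin 3 → ℝ)} {D : Finset (Fin 3)}
    (hW : ∀ ν ∈ W, ∀ i, i ∉ D → ν i = 0) (h : Module.finrank ℝ W ≠ 0) : D ≠ ∅ := by
  rintro rfl
  apply h
  rw [Submodule.finrank_eq_zero, eq_bot_iff]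
  intro ν hν
  rw [Submodule.mem_bot]
  ext i
  exact hW ν hν i (by simp)

theorem sdiff_erase1 {D : Finset (Fin 3)} {i : Fin 3} (hi : i ∈ D) : D \ D.erase i = {i} := by
  ext j
  simp only [mem_sdiff, mem_erase, mem_singleton, not_and]
  constructor
  · rintro ⟨h3, h4⟩
    by_contra hne
    exact h4 hne h3
  · rintro rfl
    exact ⟨hi, fun h => absurd rfl h⟩

/-- lower bound by the total weight, `D = univ` -/
theorem low3 (A A' τ m b0 b1 b2 c0 c1 c2 : ℝ) (hτ : 0 ≤ τ) (h0 : τ ≤ b0) (h1 : τ ≤ b1)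
    (h2 : τ ≤ b2) (ha : 0 ≤ A - b0 - b1 - b2 + τ) (m0 : m ≤ A' - c0) (m1 : m ≤ A' - c1)
    (m2 : m ≤ A' - c2) (m3 : m ≤ A') (ms : 2 * m ≤ 2 * A' - c0 - c1 - c2) :
    A * m ≤ A * A' - (b0 * c0 + b1 * c1 + b2 * c2) := by
  nlinarith [mul_nonneg (sub_nonneg.2 h0) (sub_nonneg.2 m0),
    mul_nonneg (sub_nonneg.2 h1) (sub_nonneg.2 m1),
    mul_nonneg (sub_nonneg.2 h2) (sub_nonneg.2 m2),
    mul_nonneg ha (sub_nonneg.2 m3), mul_nonneg hτ (sub_nonneg.2 ms)]

theorem low2 (A A' τ m b0 b1 b2 c0 c1 c2 : ℝ) (hτ : 0 ≤ τ) (h0 : τ ≤ b0) (h1 : τ ≤ b1)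
    (h2 : τ ≤ b2) (ha : 0 ≤ A - b0 - b1 - b2 + τ) (m0 : m ≤ A' - c0) (m1 : m ≤ A' - c1)
    (m2 : m ≤ A' - c2) (m3 : m ≤ A') (ms : m ≤ 2 * A' - c0 - c1 - c2) :
    (A - τ) * m ≤ A * A' - (b0 * c0 + b1 * c1 + b2 * c2) := by
  nlinarith [mul_nonneg (sub_nonneg.2 h0) (sub_nonneg.2 m0),
    mul_nonneg (sub_nonneg.2 h1) (sub_nonneg.2 m1),
    mul_nonneg (sub_nonneg.2 h2) (sub_nonneg.2 m2),
    mul_nonneg ha (sub_nonneg.2 m3), mul_nonneg hτ (sub_nonneg.2 ms)]

/-- ALGA -/
theorem alga (homega : OmegaS) : AlgaS := by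
  intro WR WL D A A' τ τ' bX U L0 L1 b b' aR aL hWR hWL hX hR hL hR0 hL0 hb hb' haR haL hU hL1
    hL01 iR iL hL1e
  have hBI := bi D A A' τ τ' bX b b' aR aL hX hR hL hR0 hL0 hb hb' haR haL
  have hL0' : 0 ≤ L0 := hL1.trans hL01
  have hinf : ∀ ν ∈ WR ⊓ WL, ∀ i, i ∉ D → ν i = 0 := fun ν hν => hWR ν hν.1
  have hUA : U ≤ aR D := iR D (Subset.refl _) (inj_self hWR)
  have hLA : L0 ≤ aL D := iL D (Subset.refl _) (inj_self hWL)
  -- dimension zero
  have c0 : dfc (WR ⊓ WL) ∅ = 0 → U * L0 ≤ bX := by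
    intro h
    rw [dfc_empty, Submodule.finrank_eq_zero] at h
    obtain ⟨F, hF, h1, h2⟩ := homega WR WL D hWR hWL h
    calc U * L0 ≤ aR F * aL (D \ F) :=
          mul_le_mul (iR F hF h1) (iL _ sdiff_subset h2) hL0' (haR F hF)
      _ ≤ bX := hBI F hF
  -- the weak bound
  have wk : dfc (WR ⊓ WL) ∅ ≠ 0 → (D ≠ univ ∨ WR ≠ ⊤) → U * L1 ≤ bX := by
    intro h hor
    rw [dfc_empty] at h
    have hne : D ≠ ∅ := ne_empty_of hinf h
    by_cases hD : D = univ
    · subst hD
      have hW : WR ≠ ⊤ := hor.resolve_left (fun h => h rfl)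
      obtain ⟨k, hk⟩ := single_notMem hW
      have hik := iR (univ.erase k) (subset_univ _) (inj_erase hWR hk)
      obtain ⟨t0, t1, t2⟩ := hR0 rfl
      have e1 : aR (univ.erase k) = A - b k := by
        rw [hR _ (subset_univ _) (Or.inl (by fin_cases k <;> decide)), sum_erase3]
      have e2 : aL univ = A' := by
        rw [hL _ (subset_univ _) (Or.inl (by decide)), Finset.sdiff_self, sum_empty, sub_zero]
      have e3 : ∀ i, L1 ≤ A' - b' i := by
        intro i
        have h1 := hL1e i (mem_univ _)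
        rw [hL _ (subset_univ _) (Or.inl (by fin_cases i <;> decide)), sum_erase3] at h1
        exact h1
      have e4 : 0 ≤ A' - b' 1 - b' 2 := by
        have h1 := haL {0} (subset_univ _)
        rw [hL _ (subset_univ _) (Or.inl (by decide)),
          show (univ : Finset (Fin 3)) \ {0} = {1, 2} by decide, sum_pair (by decide)] at h1
        linarith
      have e5 : 0 ≤ A - b 0 - b 1 - b 2 + τ := by
        have h1 := haR ∅ (subset_univ _)
        rw [t2, Fin.sum_univ_three] at h1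
        linarith
      have h0 := e3 0
      have := low2 A A' τ L1 (b 0) (b 1) (b 2) (b' 0) (b' 1) (b' 2) t0 (t1 0) (t1 1) (t1 2) e5
        (e3 0) (e3 1) (e3 2) (by linarith) (by linarith)
      rw [Fin.sum_univ_three] at hX
      rw [hX]
      refine le_trans ?_ this
      exact mul_le_mul_of_nonneg_right (by have := t1 k; linarith) hL1
    · have e2 : aL D = A' := by
        rw [hL _ (Subset.refl _) (Or.inr hD), Finset.sdiff_self, sum_empty, sub_zero]
      have e3 : aR D = A := by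
        rw [hR _ (Subset.refl _) (Or.inr hD), Finset.sdiff_self, sum_empty, sub_zero]
      have e4 : 0 ≤ A - ∑ i ∈ D, b i := by
        have h1 := haR ∅ (empty_subset _)
        rw [hR _ (empty_subset _) (Or.inr hD), sdiff_empty] at h1
        exact h1
      have e5 : ∀ i ∈ D, L1 ≤ A' - b' i := by
        intro i hi
        have h1 := hL1e i hi
        rw [hL _ (erase_subset _ _) (Or.inr hD), sdiff_erase1 hi, sum_singleton] at h1
        exact h1
      have e6 : L1 * ∑ i ∈ D, b i ≤ ∑ i ∈ D, b i * (A' - b' i) := by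
        rw [mul_sum]
        refine sum_le_sum fun i hi => ?_
        rw [mul_comm]
        exact mul_le_mul_of_nonneg_left (e5 i hi) (hb i)
      have e7 : ∑ i ∈ D, b i * (A' - b' i) = A' * ∑ i ∈ D, b i - ∑ i ∈ D, b i * b' i := by
        rw [mul_sum, ← sum_sub_distrib]
        exact sum_congr rfl fun i _ => by ring
      rw [e2] at hLA
      rw [e3] at hUA
      have e8 : U * L1 ≤ A * L1 := mul_le_mul_of_nonneg_right hUA hL1
      have e9 : 0 ≤ (A - ∑ i ∈ D, b i) * (A' - L1) := mul_nonneg e4 (by linarith)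
      rw [hX]
      nlinarith
  have hD3 : ∀ (n : ℕ), dfc (WR ⊓ WL) ∅ = n → ¬ (D ≠ univ ∨ WR ≠ ⊤) →
      Module.finrank ℝ WL = n ∧ D = univ := by
    intro n hn hno
    push Not at hno
    rw [dfc_empty, hno.2, top_inf_eq] at hn
    exact ⟨hn, hno.1⟩
  -- all of `WR`
  have st : ∀ m : ℝ, 0 ≤ m → D = univ → m ≤ L1 → 2 * m ≤ 2 * A' - b' 0 - b' 1 - b' 2 →
      U * m ≤ bX := by
    intro m hm hD h1 h2
    subst hD
    obtain ⟨t0, t1, t2⟩ := hR0 rfl
    have e3 : ∀ i, L1 ≤ A' - b' i := by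
      intro i
      have h1 := hL1e i (mem_univ _)
      rw [hL _ (subset_univ _) (Or.inl (by fin_cases i <;> decide)), sum_erase3] at h1
      exact h1
    have e5 : 0 ≤ A - b 0 - b 1 - b 2 + τ := by
      have h1 := haR ∅ (subset_univ _)
      rw [t2, Fin.sum_univ_three] at h1
      linarith
    have e6 : aR univ = A := by
      rw [hR _ (subset_univ _) (Or.inl (by decide)), Finset.sdiff_self, sum_empty, sub_zero]
    rw [e6] at hUA
    have x0 := e3 0
    have x1 := e3 1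
    have x2 := e3 2
    have x3 := hb' 0
    have := low3 A A' τ m (b 0) (b 1) (b 2) (b' 0) (b' 1) (b' 2) t0 (t1 0) (t1 1) (t1 2) e5
      (by linarith) (by linarith) (by linarith) (by linarith) h2
    rw [Fin.sum_univ_three] at hX
    rw [hX]
    exact le_trans (mul_le_mul_of_nonneg_right hUA hm) this
  have aLs : D = univ → ∀ i, aL {i} = A' - b' (i + 1) - b' (i + 2) ∧
      aL (univ.erase i) = A' - b' i := by
    intro hD i
    subst hD
    constructor
    · rw [hL _ (subset_univ _) (Or.inl (by simp))]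
      have : (univ : Finset (Fin 3)) \ {i} = {i + 1, i + 2} := by
        revert i
        decide
      rw [this, sum_pair (by revert i; decide)]
      ring
    · rw [hL _ (subset_univ _) (Or.inl (by revert i; decide)), sum_erase3]
  have sm : ∀ i : Fin 3, b' i + b' (i + 1) + b' (i + 2) = b' 0 + b' 1 + b' 2 := by
    intro i
    fin_cases i
    · rfl
    · show b' 1 + b' 2 + b' 0 = _
      ring
    · show b' 2 + b' 0 + b' 1 = _
      ring
  refine ⟨c0, ?_, ?_, ?_⟩
  · intro h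
    by_cases hor : D ≠ univ ∨ WR ≠ ⊤
    · exact wk (by rw [h]; norm_num) hor
    · obtain ⟨h1, hD⟩ := hD3 1 h hor
      obtain ⟨μ, hμ, hm⟩ := finrank_one h1.le
      have hμ0 : ∃ i, μ i ≠ 0 := by
        by_contra hc
        push Not at hc
        have : WL = ⊥ := by
          rw [eq_bot_iff]
          intro ν hν
          obtain ⟨c, hc'⟩ := hm ν hν
          rw [Submodule.mem_bot, ← hc', show μ = 0 from funext hc, smul_zero]
        rw [this, finrank_bot] at h1
        norm_num at h1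
      obtain ⟨i, hi⟩ := hμ0
      obtain ⟨q1, q2⟩ := aLs hD i
      have q3 := iL {i} (by rw [hD]; exact subset_univ _) (inj_one μ hm hi)
      have q4 := hL1e i (by rw [hD]; exact mem_univ _)
      rw [hD, q2] at q4
      rw [q1] at q3
      have q5 := sm i
      exact st L1 hL1 hD le_rfl (by linarith)
  · intro h
    have hmin : min L1 (L0 / 2) ≤ L1 := min_le_left _ _
    by_cases hor : D ≠ univ ∨ WR ≠ ⊤
    · exact (mul_le_mul_of_nonneg_left hmin hU).trans (wk (by rw [h]; norm_num) hor)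
    · obtain ⟨h1, hD⟩ := hD3 2 h hor
      have hWL3 : WL ≠ ⊤ := by
        intro ht
        rw [ht, finrank_top] at h1
        simp at h1
      obtain ⟨k, hk⟩ := single_notMem hWL3
      have q3 := iL (univ.erase k) (by rw [hD]; exact subset_univ _) (inj_erase (D := univ)
        (fun ν _ i hi => absurd (mem_univ i) hi) hk)
      obtain ⟨q1, q2⟩ := aLs hD k
      have q4 := haL {k} (by rw [hD]; exact subset_univ _)
      rw [q2] at q3
      rw [q1] at q4
      have q5 := sm k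
      exact st _ (le_min hL1 (by linarith)) hD hmin
        (by have := min_le_right L1 (L0 / 2); linarith)
  · intro h
    by_cases hor : D ≠ univ ∨ WR ≠ ⊤
    · have := wk (by rw [h]; norm_num) hor
      have h2 : U * (L1 / 2) ≤ U * L1 := mul_le_mul_of_nonneg_left (by linarith) hU
      exact h2.trans this
    · obtain ⟨h1, hD⟩ := hD3 3 h hor
      obtain ⟨q1, q2⟩ := aLs hD 0
      have q4 := haL {0} (by rw [hD]; exact subset_univ _)
      have q3 := hL1e 0 (by rw [hD]; exact mem_univ _)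
      rw [hD, q2] at q3
      rw [q1] at q4
      have q5 := sm 0
      exact st _ (by linarith) hD (by linarith) (by linarith)

end Pool.Agent.Xu.X2.H82
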