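import Pool.Agent.Lib.MP_144d21_co.X2.IfaceS

set_option autoImplicit false

namespace Pool.Agent.Xu.X2.H82

open Finset

/-! ### THMS and TWO: assembly of the bound (II) -/

section

variable {V : Type} [Fintype V] [DecidableEq V]

theorem cc_nonneg (t : ℕ) : 0 ≤ cc t := by
  unfold cc
  positivity

theorem cc_le_one (t : ℕ) : cc t ≤ 1 := by
  unfold cc
  exact pow_le_one₀ (by norm_num) (by norm_num)

theorem cc_of_le {t : ℕ} (h : t ≤ 5) : cc t = 1 := by
  unfold cc
  rw [Nat.sub_eq_zero_of_le h, pow_zero]

theorem ff_nonneg (hE : EesS) (p : V → Fin 3 → ℝ) (G : SimpleGraph V) (S : Finset V) :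
    0 ≤ FF p G S := by
  unfold FF
  exact mul_nonneg (by positivity) (hE.2.1 _).le

/-- every side contains an inclusion-minimal side -/
theorem exists_minSide {G : SimpleGraph V} {S T P Q : Finset V} (h : Cut3 G S T P Q) :
    ∃ T' P' Q', Cut3 G S T' P' Q' ∧ Q' ⊆ Q ∧ MinSide G S Q' := by
  classical
  have key : ∀ n : ℕ, ∀ T P Q : Finset V, Q.card = n → Cut3 G S T P Q →
      ∃ T' P' Q', Cut3 G S T' P' Q' ∧ Q' ⊆ Q ∧ MinSide G S Q' := by
    intro n
    induction n using Nat.strong_induction_on with
    | _ n ih =>
      intro T P Q hn hc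
      by_cases hm : MinSide G S Q
      · exact ⟨T, P, Q, hc, Subset.refl _, hm⟩
      · unfold MinSide at hm
        push Not at hm
        obtain ⟨T', P', Q', hc', hsub, hne⟩ := hm
        have hlt : Q'.card < Q.card := card_lt_card (Finset.ssubset_iff_subset_ne.2 ⟨hsub, hne⟩)
        obtain ⟨T'', P'', Q'', h1, h2, h3⟩ := ih Q'.card (by omega) T' P' Q' rfl hc'
        exact ⟨T'', P'', Q'', h1, h2.trans hsub, h3⟩
  exact key _ T P Q rfl h

theorem cut3_card {G : SimpleGraph V} {S T P Q : Finset V} (h : Cut3 G S T P Q) :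
    5 ≤ S.card := by
  have h1 : (T ∪ P ∪ Q).card = T.card + P.card + Q.card := by
    rw [card_union_of_disjoint (disjoint_union_left.2 ⟨h.tq, h.pq⟩),
      card_union_of_disjoint h.tp]
  have h2 := h.pn.card_pos
  have h3 := h.qn.card_pos
  have h4 := h.card
  rw [h.un] at h1
  omega

/-- a side with one vertex -/
theorem nb_of_side_one (hD : DeggeS) {G : SimpleGraph V} {S T P : Finset V} {v : V}
    (h3 : ThreeConn G S) (h : Cut3 G S T P {v}) : v ∈ S ∧ nb G S v = T := by
  have hvS : v ∈ S := by
    rw [← h.un]
    exact mem_union_right _ (mem_singleton_self v)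
  have hsub : nb G S v ⊆ T := by
    intro x hx
    obtain ⟨hxS, hadj⟩ := mem_nb.1 hx
    rw [← h.un] at hxS
    rcases mem_union.1 hxS with hx1 | hx1
    · rcases mem_union.1 hx1 with hx2 | hx2
      · exact hx2
      · exact absurd hadj.symm (h.ne x hx2 v (mem_singleton_self v))
    · rw [mem_singleton.1 hx1] at hadj
      exact absurd rfl hadj.ne
  refine ⟨hvS, eq_of_subset_of_card_le hsub ?_⟩
  rw [h.card]
  exact hD V G S v h3 hvS

end

/-- THMS: Theorem S' -/
theorem thms (hN : NocutS) (hA : CaseaS) (hB : CasebS) (hC : CasecS) (hE : EesS) (_ : KnS)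
    (hD : DeggeS) : ThmsS := by
  intro V _ _ p hp
  have key : ∀ n m : ℕ, ∀ (G : SimpleGraph V) (S : Finset V), S.card = n → ne G S = m →
      ThreeConn G S → Bd p G S := by
    intro n
    induction n using Nat.strong_induction_on with
    | _ n ihn =>
      intro m
      induction m using Nat.strong_induction_on with
      | _ m ihm =>
        intro G S hn hm h3
        have hIH : IH p G S := by
          intro G' S' hlt h3'
          rcases hlt with hlt | ⟨heq, hlt⟩
          · exact ihn S'.card (by omega) (ne G' S') G' S' rfl rfl h3'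
          · exact ihm (ne G' S') (by omega) G' S' (by omega) rfl h3'
        by_cases hcut : ∃ T P Q, Cut3 G S T P Q
        · obtain ⟨T0, P0, Q0, h0⟩ := hcut
          have h5 := cut3_card h0
          by_cases hbig : ∃ T P Q, Cut3 G S T P Q ∧ 2 ≤ Q.card ∧ MinSide G S Q
          · obtain ⟨T, P, Q, hc, h2, hmin⟩ := hbig
            exact hA V p hp G S T P Q h3 hIH hc h2 hmin
          · by_cases hhub : ∃ v ∈ S, (nb G S v).card = 3 ∧ ∀ h, ¬ Hub G S v h
            · obtain ⟨v, hv, hv3, hh⟩ := hhub
              exact hB V p hp G S v h3 h5 hIH hv hv3 hh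
            · refine hC V p hp G S h3 h5 hIH ⟨T0, P0, Q0, h0⟩ ?_ ?_
              · intro T P Q hc
                obtain ⟨T', P', Q', hc', hsub, hmin⟩ := exists_minSide hc.symm
                have hcard : Q'.card = 1 := by
                  have h1 := hc'.qn.card_pos
                  by_contra hne
                  exact hbig ⟨T', P', Q', hc', by omega, hmin⟩
                obtain ⟨v, hv⟩ := card_eq_one.1 hcard
                rw [hv] at hc' hsub
                obtain ⟨h1, h2⟩ := nb_of_side_one hD h3 hc'
                exact ⟨v, hsub (mem_singleton_self v), by rw [h2, hc'.card]⟩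
              · intro v hv hv3
                by_contra hno
                push Not at hno
                exact hhub ⟨v, hv, hv3, hno⟩
        · push Not at hcut
          intro t _
          have h1 := hN V p hp.1 G S h3 hcut hIH
          have h2 : cc t * FF p G S ≤ 1 * FF p G S :=
            mul_le_mul_of_nonneg_right (cc_le_one t) (ff_nonneg hE p G S)
          linarith
  intro G S h3
  exact key _ _ G S rfl rfl h3

/-- TWO: the bound (II) -/
theorem two (hT : ThmsS) : TwoS := by
  intro V _ _ p hp G S h3 hno
  have h1 := hT V p hp G S h3 0 ⟨Fin.elim0, fun k => k.elim0, fun T P Q h => absurd h (hno T P Q)⟩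
  rwa [cc_of_le (by omega), one_mul] at h1

end Pool.Agent.Xu.X2.H82
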